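import Pool.Agent.Lib.MP_315eb0_co.Graph

/-!
# Universal graphs for bounded pathwidth need quadratic pathwidth

For `k ≥ 1`, a subgraph-universal sequence of polynomial order for the graphs of pathwidth at
most `k` has a member of pathwidth at least `k * (k + 1) / 2`.  So the pathwidth of such a
sequence is not bounded by `C * k` for any constant `C`.
-/

set_option autoImplicit false

namespace Pool.Agent.Results.MP_315eb0_co.QuadraticPathwidth

/-- `bag 0, ..., bag (m - 1)` is a path decomposition of the graph `G`: every vertex lies in a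
bag, the two ends of every edge lie in a common bag, and the bags holding a given vertex are
consecutive. -/
structure IsPathDecomposition {V : Type} (G : SimpleGraph V) {m : ℕ}
    (bag : Fin m → Finset V) : Prop where
  vertex_mem : ∀ v, ∃ s, v ∈ bag s
  edge_mem : ∀ u v, G.Adj u v → ∃ s, u ∈ bag s ∧ v ∈ bag s
  consecutive : ∀ s t u v, s ≤ t → t ≤ u → v ∈ bag s → v ∈ bag u → v ∈ bag t

/-- The pathwidth of `G`: the least `w` such that `G` has a path decomposition all of whose bags
have at most `w + 1` vertices. -/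
noncomputable def pathwidth {V : Type} (G : SimpleGraph V) : ℕ :=
  sInf {w : ℕ | ∃ (m : ℕ) (bag : Fin m → Finset V), IsPathDecomposition G bag ∧
    ∀ s, (bag s).card ≤ w + 1}

/-- The sequence `U 1, U 2, ...` of finite graphs, where `U n` has `N n` vertices, is
subgraph-universal for the class of the graphs of pathwidth at most `k`: for every `n ≥ 1`, every
`n`-vertex graph of pathwidth at most `k` is a (not necessarily induced) subgraph of `U n`. -/
def SubgraphUniversal (k : ℕ) {N : ℕ → ℕ} (U : (n : ℕ) → SimpleGraph (Fin (N n))) : Prop :=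
  ∀ n : ℕ, 1 ≤ n → ∀ G : SimpleGraph (Fin n), pathwidth G ≤ k → G.IsContained (U n)

/-- The orders `N n` are bounded by a fixed power of `n`. -/
def PolynomialOrder (N : ℕ → ℕ) : Prop :=
  ∃ e : ℕ, ∀ n : ℕ, 2 ≤ n → N n ≤ n ^ e

theorem pathwidth_le {V : Type} {G : SimpleGraph V} {w m : ℕ} {bag : Fin m → Finset V}
    (h : IsPathDecomposition G bag) (hw : ∀ s, (bag s).card ≤ w + 1) : pathwidth G ≤ w :=
  Nat.sInf_le ⟨m, bag, h, hw⟩

theorem exists_of_pathwidth {V : Type} [Fintype V] (G : SimpleGraph V) :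
    ∃ (m : ℕ) (bag : Fin m → Finset V), IsPathDecomposition G bag ∧
      ∀ s, (bag s).card ≤ pathwidth G + 1 := by
  have h : {w : ℕ | ∃ (m : ℕ) (bag : Fin m → Finset V), IsPathDecomposition G bag ∧
      ∀ s, (bag s).card ≤ w + 1}.Nonempty := by
    refine ⟨Fintype.card V, 1, fun _ => Finset.univ, ⟨?_, ?_, ?_⟩, ?_⟩
    · exact fun v => ⟨0, Finset.mem_univ v⟩
    · exact fun u v _ => ⟨0, Finset.mem_univ u, Finset.mem_univ v⟩
    · exact fun _ _ _ v _ _ _ _ => Finset.mem_univ v
    · intro _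
      rw [Finset.card_univ]
      omega
  exact Nat.sInf_mem h

/-- For every `k ≥ 1` and every real `C < (k + 1) / 2`, no subgraph-universal sequence for the
graphs of pathwidth at most `k` has both pathwidth at most `C * k` throughout and polynomial
order. -/
theorem result (k : ℕ) (hk : 1 ≤ k) (C : ℝ) (hC : C < (k + 1) / 2) :
    ¬ ∃ (N : ℕ → ℕ) (U : (n : ℕ) → SimpleGraph (Fin (N n))),
      SubgraphUniversal k U ∧ (∀ n : ℕ, 1 ≤ n → (pathwidth (U n) : ℝ) ≤ C * k) ∧
      PolynomialOrder N := by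
  rintro ⟨N, U, hU, hpw, e, he⟩
  obtain ⟨n₀, hn₀⟩ := Pool.Agent.PWU.core k e hk
  obtain ⟨m, bag, h1, h2⟩ := exists_of_pathwidth (U (max n₀ 2))
  have h3 := he (max n₀ 2) (le_max_right _ _)
  have h4 : 1 ≤ max n₀ 2 := le_trans (by norm_num) (le_max_right n₀ 2)
  obtain ⟨s, hs⟩ := hn₀ (max n₀ 2) (le_max_left _ _) (N (max n₀ 2)) (U (max n₀ 2)) h3 (by
    rintro G ⟨m', bag', h5, h6⟩
    exact hU _ h4 G (pathwidth_le ⟨h5.vert, h5.edge, h5.intv⟩ h6)) m bag
    ⟨h1.vertex_mem, h1.edge_mem, h1.consecutive⟩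
  have h5 := h2 s
  have h6 : k * (k + 1) / 2 ≤ pathwidth (U (max n₀ 2)) := by omega
  have h7 : k * (k + 1) ≤ 2 * pathwidth (U (max n₀ 2)) := by
    have h8 : 2 * (k * (k + 1) / 2) = k * (k + 1) :=
      Nat.mul_div_cancel' (Nat.even_mul_succ_self k).two_dvd
    omega
  have h8 : ((k : ℝ) * (k + 1)) ≤ 2 * pathwidth (U (max n₀ 2)) := by exact_mod_cast h7
  have h9 := hpw (max n₀ 2) h4
  have h10 : (0 : ℝ) < k := by exact_mod_cast hk
  nlinarith [mul_pos h10 (sub_pos.mpr hC)]

end Pool.Agent.Results.MP_315eb0_co.QuadraticPathwidth
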